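import Pool.Agent.helper16.EXC.Spec3

set_option autoImplicit false

open Finset

namespace Pool.Agent.EXC

theorem ZMT_pow {F : Type} [Field F] {M : Matrix (Fin 2) (Fin 2) F} (h3 : M ^ 3 = -1) (k : ℕ) :
    M ^ (3 * k) = 1 ∨ M ^ (3 * k) = -1 := by
  rw [pow_mul, h3]
  exact neg_one_pow_eq_or _ k

theorem ZMT : ZMT_stmt := by
  intro F _
  constructor
  · intro m h
    have hM2 : (!![0, -1; 1, 1] : Matrix (Fin 2) (Fin 2) F) ^ 2 = !![-1, -1; 1, 0] := by
      rw [pow_two, Matrix.mul_fin_two]
      norm_num
    have hM3 : (!![0, -1; 1, 1] : Matrix (Fin 2) (Fin 2) F) ^ 3 = -1 := by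
      rw [pow_succ, hM2, Matrix.mul_fin_two, Matrix.one_fin_two]
      norm_num
    have key : ((!![0, -1; 1, 1] : Matrix (Fin 2) (Fin 2) F) ^ m) 1 0 = 0 := by
      have h1 := congrFun (congrFun h 0) 0
      rw [Matrix.mul_apply, Matrix.mul_apply, Fin.sum_univ_two, Fin.sum_univ_two] at h1
      simp at h1
      exact h1
    rcases (by omega : m % 3 = 0 ∨ m % 3 = 1 ∨ m % 3 = 2) with h0 | h0 | h0
    · exact Nat.dvd_of_mod_eq_zero h0
    · exfalso
      have hm : m = 3 * (m / 3) + 1 := by omega
      rw [hm, pow_succ] at key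
      rcases ZMT_pow hM3 (m / 3) with h1 | h1 <;> rw [h1] at key <;> simp at key
    · exfalso
      have hm : m = 3 * (m / 3) + 2 := by omega
      rw [hm, pow_add, hM2] at key
      rcases ZMT_pow hM3 (m / 3) with h1 | h1 <;> rw [h1] at key <;> simp at key
  · intro h3 M hd ht m hm
    have hM2 : M ^ 2 = M - 1 := by
      rw [Matrix.det_fin_two] at hd
      rw [Matrix.trace_fin_two] at ht
      ext i j
      fin_cases i <;> fin_cases j <;> simp [pow_two, Matrix.mul_apply, Fin.sum_univ_two]
      · linear_combination M 0 0 * ht - hd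
      · linear_combination M 0 1 * ht
      · linear_combination M 1 0 * ht
      · linear_combination M 1 1 * ht - hd
    have hM3 : M ^ 3 = -1 := by
      rw [pow_succ, hM2, sub_mul, one_mul, ← pow_two, hM2]
      abel
    rcases (by omega : m % 3 = 0 ∨ m % 3 = 1 ∨ m % 3 = 2) with h0 | h0 | h0
    · exact Nat.dvd_of_mod_eq_zero h0
    · exfalso
      have hm' : m = 3 * (m / 3) + 1 := by omega
      rw [hm', pow_succ] at hm
      rcases ZMT_pow hM3 (m / 3) with h1 | h1
      · rw [h1, one_mul] at hm
        rw [hm, Matrix.trace_one] at ht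
        apply h3
        simp at ht
        exfalso
        have h4 : (1 : F) = 0 := by linear_combination ht
        exact one_ne_zero h4
      · rw [h1, neg_one_mul] at hm
        have h2 : M = -1 := by rw [← hm, neg_neg]
        rw [h2, Matrix.trace_neg, Matrix.trace_one] at ht
        simp at ht
        apply h3
        linear_combination -ht
    · exfalso
      have hm' : m = 3 * (m / 3) + 2 := by omega
      rw [hm', pow_add, hM2] at hm
      rcases ZMT_pow hM3 (m / 3) with h1 | h1
      · rw [h1, one_mul] at hm
        have h2 : M = 1 + 1 := sub_eq_iff_eq_add.1 hm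
        rw [h2, Matrix.trace_add, Matrix.trace_one] at ht
        simp at ht
        apply h3
        linear_combination ht
      · rw [h1, neg_one_mul] at hm
        have h2 : M = 0 := by
          have h4 : 1 - M = 1 := by rw [← neg_sub]; exact hm
          exact sub_eq_self.1 h4
        rw [h2] at hd
        simp at hd

end Pool.Agent.EXC
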